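import Mathlib
import Pool.Agent.T6.H1.Ar.Mean

set_option autoImplicit false

/-! # Artin's conjecture relative to ARBITRARY sets of primes, with power-saving error term

Let `R S n` be the number of the primes `p ∈ S` for which `n` is a primitive root, and let the local
density `ρ B r p` be the proportion of the residue classes `m` modulo `p` for which `B m ^ r` is a
primitive root modulo `p` (so `ρ B 1 p = φ(p - 1) / p` if `p ∤ B`; the primes `l ∣ (p - 1, r)` and the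
character of the fixed base `B` enter for `r > 1`).

Let `η > 0`, let `x` be large in terms of `η` only, let `B ≠ 0` and `r ≥ 1` be arbitrary, let `S` be an
ARBITRARY set of primes `p ≤ x`, `p ∤ B`, with `|S| ≥ x ^ (1 / 2 + η) log 2N`, and let `U`, `V` be
ARBITRARY finite sets of integers of absolute value at most `N`, with `|U| |V| ≥ x ^ (2 + η)` and
`|U| |S|², |V| |S|² ≥ x ^ (2 + η) (log 2N)²`.  Then

`|R S n - ∑ p ∈ S, ρ B r p| ≤ x ^ (-η / 8) |S|`

for `n = B (u + v) ^ r`, for all but at most `x ^ (-η / 8) |U| |V|` of the pairs `(u, v) ∈ U × V`, and the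
same holds for `n = B (u v + c) ^ r`, for every integer `c ≠ 0`, `|c| ≤ N`, if `0 ∉ U` and `0 ∉ V`.

So the primes may be taken from short intervals, from progressions with a modulus up to `x ^ (1 / 2 - η)`,
from sets with missing digits, or from any other set without structure.  If `S` consists of all primes
up to `x` and `B` is a base of Q1, the mean of the local densities is the corrected density of Q1 for
even `r` (and Artin's constant for odd `r`), which is the last part of the theorem. -/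

namespace Pool.Agent.Results.MP_991e92_nt.ArbitraryPrimeSets

open Finset Classical

/-- the number of the primes `p ∈ S` for which `n` is a primitive root modulo `p` -/
noncomputable def R (S : Finset ℕ) (n : ℤ) : ℕ :=
  (S.filter (fun p : ℕ => orderOf (n : ZMod p) = p - 1)).card

/-- the proportion of the residue classes `m` modulo `p` for which `B m ^ r` is a primitive root
modulo `p` -/
noncomputable def ρ (B : ℤ) (r p : ℕ) : ℝ :=
  (((range p).filter (fun m : ℕ => orderOf ((B * (m : ℤ) ^ r : ℤ) : ZMod p) = p - 1)).card : ℝ) / p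

/-- Artin's constant -/
noncomputable def A : ℝ := ∏' p : Nat.Primes, (1 - 1 / (((p : ℕ) : ℝ) * (((p : ℕ) : ℝ) - 1)))

/-- the density of Q1 for the squarefree part `D` -/
noncomputable def δ (D : ℤ) : ℝ :=
  (1 - ((ArithmeticFunction.moebius D.natAbs : ℤ) : ℝ) *
    ∏ q ∈ D.natAbs.primeFactors, (1 / ((q : ℝ) ^ 2 - (q : ℝ) - 1))) * A

theorem result :
    (∀ η : ℝ, 0 < η → ∃ x₀ : ℕ, ∀ (x N : ℕ) (B : ℤ) (r : ℕ) (S : Finset ℕ) (U V : Finset ℤ),
      x₀ ≤ x → 1 ≤ N → 1 ≤ r → (∀ p ∈ S, p.Prime ∧ p ≤ x ∧ ¬ (p : ℤ) ∣ B) →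
      (x : ℝ) ^ (1 / 2 + η) * Real.log (2 * N) ≤ S.card →
      (∀ u ∈ U, |u| ≤ N) → (∀ v ∈ V, |v| ≤ N) → (x : ℝ) ^ (2 + η) ≤ (U.card : ℝ) * V.card →
      (x : ℝ) ^ (2 + η) * Real.log (2 * N) ^ 2 ≤ (U.card : ℝ) * (S.card : ℝ) ^ 2 →
      (x : ℝ) ^ (2 + η) * Real.log (2 * N) ^ 2 ≤ (V.card : ℝ) * (S.card : ℝ) ^ 2 →
      (((U ×ˢ V).filter (fun z => (x : ℝ) ^ (-(η / 8)) * S.card <
          |(R S (B * (z.1 + z.2) ^ r) : ℝ) - ∑ p ∈ S, ρ B r p|)).card : ℝ) ≤
        (x : ℝ) ^ (-(η / 8)) * ((U.card : ℝ) * V.card) ∧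
      ∀ c : ℤ, c ≠ 0 → |c| ≤ N → 0 ∉ U → 0 ∉ V →
        (((U ×ˢ V).filter (fun z => (x : ℝ) ^ (-(η / 8)) * S.card <
            |(R S (B * (z.1 * z.2 + c) ^ r) : ℝ) - ∑ p ∈ S, ρ B r p|)).card : ℝ) ≤
          (x : ℝ) ^ (-(η / 8)) * ((U.card : ℝ) * V.card)) ∧
    (∀ B D k : ℤ, (¬ ∃ m : ℤ, ∃ j : ℕ, 1 < j ∧ B = m ^ j) → B = D * k ^ 2 → k ≠ 0 → Squarefree D → D % 4 = 1 →
      ∀ r : ℕ, 1 ≤ r →
        Filter.Tendsto (fun x : ℕ => (∑ p ∈ (range (x + 1)).filter Nat.Prime, ρ B r p) /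
          (Nat.primeCounting x : ℝ)) Filter.atTop (nhds (if 2 ∣ r then δ D else A))) := by
  have hρ : ∀ (B : ℤ) (r p : ℕ), ρ B r p = Pool.Agent.R459.Eq.mean p (Pool.Agent.T6.H1.Sm.fB B r p) := by
    intro B r p
    unfold ρ Pool.Agent.R459.Eq.mean Pool.Agent.T6.H1.Sm.fB
    rw [card_filter]
    push_cast
    congr 1
  have hR : ∀ (S : Finset ℕ) (n : ℤ), R S n = Pool.Agent.T6.H1.Ar.cn S n := fun _ _ => rfl
  constructor
  · intro η hη
    obtain ⟨X1, _, h1⟩ := Pool.Agent.T6.H1.Ar.sums η hη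
    obtain ⟨X2, _, h2⟩ := Pool.Agent.T6.H1.Ar.prods η hη
    refine ⟨max X1 X2, fun x N B r S U V hx hN hr hP hQ hU hV hUV hLU hLV => ?_⟩
    have hC : Pool.Agent.T6.H1.Ar.Cnd η x N B S U V := ⟨hN, hP, hQ, hU, hV, hUV, hLU, hLV⟩
    simp only [hρ, hR]
    refine ⟨h1 x N B r S U V ((le_max_left _ _).trans hx) hr hC, fun c hc hcN hU0 hV0 => ?_⟩
    exact h2 x N B r S U V c ((le_max_right _ _).trans hx) hr hC hc hcN hU0 hV0
  · intro B D k hpow hBD hk hD hD4 r hr
    have hb := Pool.Agent.T6.H1.Sm.base_B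
      ⟨B, D, k, hBD, hD, hD4, hk, fun r hr c hc => hpow ⟨c, r, hr, hc.symm⟩⟩ r hr
    have h1 := Pool.Agent.T6.H1.Ar.mean_all B r _ hb
    simp only [hρ]
    convert h1 using 2
    by_cases h2 : 2 ∣ r
    · rw [if_pos h2]
      obtain ⟨t, ht⟩ := h2
      have h3 := hb.even ⟨t, ht⟩ 1 D k hD hk (by rw [one_pow, mul_one]; exact hBD)
      rw [h3]
      unfold Pool.Agent.T6.H1.Sm.dl
      rw [if_pos hD4]
      rfl
    · rw [if_neg h2]
      exact (hb.odd h2).symm
end Pool.Agent.Results.MP_991e92_nt.ArbitraryPrimeSets
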