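import Mathlib
import Pool.Agent.T6.H1.Th.Main

set_option autoImplicit false

/-! # The density formula of Q1 for the prime divisors of the index in a thin set, for every base

Let `n = D k²` be as in Q1: `D ≡ 1 mod 4` is squarefree and `n` is not a perfect power.  Write `i_p(n)`
for the index of the group generated by `n` modulo `p`.  So `S(n)` is the set of the primes `p ∤ n` such
that no prime `l` divides `i_p(n)`.

Let `R` be any set of primes with `∑_{l ∈ R} 1 / l < ∞` and let `η p → 0`.  Then the set of the primes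
`p ∤ n` such that no prime `l ∈ R` and no prime `l ≥ p ^ (1 / 2 - η p)` divides `i_p(n)` has the relative
density

`δ R D = c ∏_{l ∈ R} (1 - 1 / (l (l - 1)))`,

where `c = 1 - μ(|D|) ∏_{q ∣ D} 1 / (q² - q - 1)` if `2` and all prime factors of `D` are in `R`, and
`c = 1` otherwise.  If `R` is the set of all primes, this is the formula of Q1. -/

namespace Pool.Agent.Results.MP_991e92_nt.IndexThinSets

open Finset Classical Filter Topology

/-- the index of the group generated by `n` modulo `p` -/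
noncomputable def index (n : ℤ) (p : ℕ) : ℕ := (p - 1) / orderOf (n : ZMod p)

/-- the number of the primes `p ≤ x`, `p ∤ n`, such that the index of `n` modulo `p` is divisible by no
prime `l ∈ R` and by no prime `l ≥ p ^ (1 / 2 - η p)` -/
noncomputable def P (R : Set ℕ) (η : ℕ → ℝ) (n : ℤ) (x : ℕ) : ℕ :=
  ((Finset.range (x + 1)).filter (fun p : ℕ => p.Prime ∧ ¬ (p : ℤ) ∣ n ∧
    ∀ l : ℕ, l.Prime → (l ∈ R ∨ (p : ℝ) ^ (1 / 2 - η p) ≤ l) → ¬ l ∣ index n p)).card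

/-- the expected density, with its correction factor -/
noncomputable def δ (R : Set ℕ) (D : ℤ) : ℝ :=
  (if 2 ∈ R ∧ ∀ q ∈ D.natAbs.primeFactors, q ∈ R then
    1 - ((ArithmeticFunction.moebius D.natAbs : ℤ) : ℝ) *
      ∏ q ∈ D.natAbs.primeFactors, (1 / ((q : ℝ) ^ 2 - (q : ℝ) - 1)) else 1) *
  ∏' l : R, (1 - 1 / (((l : ℕ) : ℝ) * (((l : ℕ) : ℝ) - 1)))

theorem result (n D k : ℤ) (hn : n = D * k ^ 2) (hk : k ≠ 0) (hD : Squarefree D) (hD4 : D % 4 = 1)
    (hpow : ¬ ∃ m : ℤ, ∃ r : ℕ, 1 < r ∧ n = m ^ r)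
    (R : Set ℕ) (hR : ∀ l ∈ R, l.Prime) (hsum : Summable (fun l : R => 1 / ((l : ℕ) : ℝ)))
    (η : ℕ → ℝ) (hη : Tendsto η atTop (𝓝 0)) :
    Tendsto (fun x : ℕ => (P R η n x : ℝ) / (Nat.primeCounting x : ℝ)) atTop (𝓝 (δ R D)) := by
  let s : Pool.Agent.TH893.BR.Bs := ⟨n, D, k, hn, hD, hD4, hk, fun r hr c hc => hpow ⟨c, r, hr, hc.symm⟩⟩
  have h := Pool.Agent.T6.H1.Th.main s R hR hsum η hη
  have e1 : (if (∀ l ∈ s.T, l ∈ R) then s.cf else 1) * ∏' l : R, Pool.Agent.T6.H1.Th.fac (l : ℕ) = δ R D := by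
    unfold δ
    have h1 : (∀ l ∈ s.T, l ∈ R) ↔ (2 ∈ R ∧ ∀ q ∈ D.natAbs.primeFactors, q ∈ R) := by
      unfold Pool.Agent.TH893.BR.Bs.T Pool.Agent.TH893.BR.Bs.PD
      rw [Finset.forall_mem_insert]
    by_cases h2 : ∀ l ∈ s.T, l ∈ R
    · rw [if_pos h2, if_pos (h1.1 h2)]
      rfl
    · rw [if_neg h2, if_neg (fun h3 => h2 (h1.2 h3))]
      rfl
  rw [e1] at h
  refine h.congr fun x => ?_
  congr 2
  unfold P
  congr 1
  ext p
  rw [mem_filter, mem_filter, Pool.Agent.T6.H1.Th.mem_PP', mem_range, Nat.lt_succ_iff]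
  constructor
  · rintro ⟨⟨h1, h2⟩, h3, h4⟩
    exact ⟨h1, h2, h3, h4⟩
  · rintro ⟨h1, h2, h3, h4⟩
    exact ⟨⟨h1, h2⟩, h3, h4⟩

end Pool.Agent.Results.MP_991e92_nt.IndexThinSets
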