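import Mathlib
import Pool.Agent.T6.H1.Pm.Fin

set_option autoImplicit false

/-! # Artin's density with correction factor for almost all shifted products of two arbitrary finite sets

For a nonzero integer `n = D s²` with `D` squarefree let `δ D` be the predicted density: the value of Q1
if `D ≡ 1 mod 4`, and Artin's constant otherwise.  Let `P n x` be the number of primes `p ≤ x` for which
`n` is a primitive root.  Let either `r = 1` and `B ≠ 0`, or let `r ≥ 1` be any exponent and `B` a base of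
Q1 (so for even `r` all the bases `B m ^ r`, `m ≠ 0`, have the squarefree part `D ≡ 1 mod 4` of `B`).

Let `c ≠ 0` be an integer, and let `U` and `V` be ARBITRARY nonempty finite sets of nonzero integers, all
of absolute value at most `N`, and let `(log 2N) ^ (2 + η) ≤ X`.  For all but at most
`C X ^ (-η / 16) |U| |V|` pairs `(u, v) ∈ U × V`, the base `n = B (u v + c) ^ r` satisfies
`|P n x - δ D π(x)| ≤ ε π(x)`, where `n = D s²`, for ALL `x ≥ X` in the range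
`x ^ (2 + η) ≤ |U| |V|`, `x ^ η (log 2N)² ≤ min (|U|, |V|)`.

No structure of `U` and `V` is used, the constants do not depend on the shift `c`, and the sets may have
as few as `(log N) ^ (2 + η')` elements.  The condition `c ≠ 0` cannot be dropped: for `c = 0` and sets of
cubes all the products are cubes, which are primitive roots for no `p ≡ 1 mod 3`. -/

namespace Pool.Agent.Results.MP_991e92_nt.ShiftedProducts

open Finset Classical

/-- the number of the primes `p ≤ x` for which `n` is a primitive root modulo `p` -/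
noncomputable def P (n : ℤ) (x : ℕ) : ℕ :=
  ((Finset.range (x + 1)).filter (fun p : ℕ => p.Prime ∧ orderOf (n : ZMod p) = p - 1)).card

/-- Artin's constant -/
noncomputable def A : ℝ := ∏' p : Nat.Primes, (1 - 1 / (((p : ℕ) : ℝ) * (((p : ℕ) : ℝ) - 1)))

/-- the predicted density for the integers with squarefree part `D` -/
noncomputable def δ (D : ℤ) : ℝ :=
  if D % 4 = 1 then
    (1 - ((ArithmeticFunction.moebius D.natAbs : ℤ) : ℝ) *
      ∏ q ∈ D.natAbs.primeFactors, (1 / ((q : ℝ) ^ 2 - (q : ℝ) - 1))) * A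
  else A

/-- `B` is a base of Q1: not a perfect power, with squarefree part congruent to `1` modulo `4` -/
def IsBase (B : ℤ) : Prop :=
  (¬ ∃ m : ℤ, ∃ j : ℕ, 1 < j ∧ B = m ^ j) ∧
    ∃ D k : ℤ, B = D * k ^ 2 ∧ k ≠ 0 ∧ Squarefree D ∧ D % 4 = 1

theorem result (B : ℤ) (r : ℕ) (hr : 1 ≤ r) (hB : (r = 1 ∧ B ≠ 0) ∨ IsBase B)
    (η : ℝ) (hη : 0 < η) (hη1 : η ≤ 1) (ε : ℝ) (hε : 0 < ε) :
    ∃ (C : ℝ) (X₀ : ℕ), 0 < C ∧ ∀ (X N : ℕ) (c : ℤ) (U V : Finset ℤ), X₀ ≤ X → 1 ≤ N →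
      c ≠ 0 → |c| ≤ N → (∀ u ∈ U, u ≠ 0 ∧ |u| ≤ N) → (∀ v ∈ V, v ≠ 0 ∧ |v| ≤ N) →
      Real.log (2 * N) ^ (2 + η) ≤ X →
      (((U ×ˢ V).filter (fun z => ∃ x : ℕ, X ≤ x ∧ (x : ℝ) ^ (2 + η) ≤ (U.card : ℝ) * V.card ∧
        (x : ℝ) ^ η * Real.log (2 * N) ^ 2 ≤ U.card ∧ (x : ℝ) ^ η * Real.log (2 * N) ^ 2 ≤ V.card ∧
        ∃ D s : ℤ, Squarefree D ∧ s ≠ 0 ∧ B * (z.1 * z.2 + c) ^ r = D * s ^ 2 ∧
          ε * (Nat.primeCounting x : ℝ) <
            |(P (B * (z.1 * z.2 + c) ^ r) x : ℝ) - δ D * (Nat.primeCounting x : ℝ)|)).card : ℝ) ≤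
        C * (X : ℝ) ^ (-(η / 16)) * ((U.card : ℝ) * V.card) := by
  have hbase : ∃ d : ℝ, Pool.Agent.T6.H1.Sm.Base B r d := by
    rcases hB with ⟨rfl, hB⟩ | ⟨hpow, D, k, hBD, hk, hD, hD4⟩
    · exact ⟨_, Pool.Agent.T6.H1.Sm.base_lin B hB⟩
    · exact ⟨_, Pool.Agent.T6.H1.Sm.base_B
        ⟨B, D, k, hBD, hD, hD4, hk, fun r hr c hc => hpow ⟨c, r, hr, hc.symm⟩⟩ r hr⟩
  obtain ⟨d, hd⟩ := hbase
  obtain ⟨C, X₀, hC, h⟩ := Pool.Agent.T6.H1.Pm.final B r d hd η hη hη1 ε hε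
  refine ⟨C, X₀, hC, fun X N c U V hX hN hc hcN hU hV hL => ?_⟩
  refine le_trans ?_ (h X N c U V hX hN hc hcN hU hV hL)
  have hP : ∀ (n : ℤ) (x : ℕ), P n x = Pool.Agent.H730R2.AA.cnt n x := by
    intro n x
    unfold P Pool.Agent.H730R2.AA.cnt
    congr!
  have hδ : ∀ D : ℤ, δ D = Pool.Agent.T6.H1.Sm.dl D := fun D => rfl
  have hsub : (U ×ˢ V).filter (fun z => ∃ x : ℕ, X ≤ x ∧ (x : ℝ) ^ (2 + η) ≤ (U.card : ℝ) * V.card ∧
        (x : ℝ) ^ η * Real.log (2 * N) ^ 2 ≤ U.card ∧ (x : ℝ) ^ η * Real.log (2 * N) ^ 2 ≤ V.card ∧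
        ∃ D s : ℤ, Squarefree D ∧ s ≠ 0 ∧ B * (z.1 * z.2 + c) ^ r = D * s ^ 2 ∧
          ε * (Nat.primeCounting x : ℝ) <
            |(P (B * (z.1 * z.2 + c) ^ r) x : ℝ) - δ D * (Nat.primeCounting x : ℝ)|) ⊆
      (U ×ˢ V).filter (fun z => ∃ x : ℕ, X ≤ x ∧
        Pool.Agent.T6.H1.Sm.Cd η (Real.log (2 * N)) U.card V.card x ∧
        ∃ D s : ℤ, Squarefree D ∧ s ≠ 0 ∧ B * (z.1 * z.2 + c) ^ r = D * s ^ 2 ∧
        ε * (Nat.primeCounting x : ℝ) < |(Pool.Agent.H730R2.AA.cnt (B * (z.1 * z.2 + c) ^ r) x : ℝ) -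
          Pool.Agent.T6.H1.Sm.dl D * Nat.primeCounting x|) := by
    intro z hz
    rw [mem_filter] at hz ⊢
    obtain ⟨hz1, x, h1, h2, h3, h4, D, s, h5, h6, h7, h8⟩ := hz
    rw [hP, hδ] at h8
    exact ⟨hz1, x, h1, ⟨h2, h3, h4⟩, D, s, h5, h6, h7, h8⟩
  exact_mod_cast card_le_card hsub

end Pool.Agent.Results.MP_991e92_nt.ShiftedProducts
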